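import Pool.Agent.Q187.TP.Gap

/-!
# Pieces and images of thick sets, and the three-point pattern
-/

set_option autoImplicit false

open Set

namespace Pool.Agent.Q187.TP

lemma Gap.of_inter {K : Set ℝ} {p M u w : ℝ} (hM : ∀ x ∈ K, x ≤ M)
    (h : Gap (K ∩ Icc p M) u w) : Gap K u w := by
  obtain ⟨hu, hw, huw, hx⟩ := h
  refine ⟨hu.1, hw.1, huw, fun x hxK => ?_⟩
  rcases lt_or_ge x p with h1 | h1
  · exact Or.inl (h1.le.trans hu.2.1)
  · exact hx x ⟨hxK, h1, hM x hxK⟩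

/-- A piece of a thick set at its right end is thick. -/
lemma Th.piece {K : Set ℝ} {c p M u₀ : ℝ} (hc : 0 < c) (t : Th c K) (hM : ∀ x ∈ K, x ≤ M)
    (hG : Gap K u₀ p) (hmax : ∀ u w, Gap K u w → p ≤ u → w - u ≤ p - u₀) :
    Th c (K ∩ Icc p M) := by
  constructor
  · intro u w u' w' h1 h2 h3
    exact t.mid _ _ _ _ (h1.of_inter hM) (h2.of_inter hM) h3
  · intro u w h1
    obtain ⟨z, hz, hz1⟩ := t.right _ _ (h1.of_inter hM)
    have h2 : 0 < c * (w - u) := mul_pos hc (by linarith [h1.2.2.1])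
    exact ⟨z, ⟨hz, by linarith [h1.2.1.2.1], hM z hz⟩, hz1⟩
  · intro u w h1
    have h2 := h1.of_inter hM
    have h3 := t.mid _ _ _ _ hG h2 h1.1.2.1
    rw [min_eq_right (hmax _ _ h2 h1.1.2.1)] at h3
    exact ⟨p, ⟨hG.2.1, le_rfl, hM p hG.2.1⟩, h3⟩

/-- The image of a thick set under a map of small distortion. -/
lemma Th.image {A : Set ℝ} {c l₁ l₂ : ℝ} (hc : 0 < c) (t : Th c A) (h1 : 0 < l₁)
    (h12 : l₂ ≤ c * l₁) {φ : ℝ → ℝ}
    (hφ : ∀ x ∈ A, ∀ y ∈ A, x ≤ y → l₁ * (y - x) ≤ φ y - φ x ∧ φ y - φ x ≤ l₂ * (y - x)) :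
    Th 1 (φ '' A) := by
  have mono : ∀ x ∈ A, ∀ y ∈ A, φ x ≤ φ y → x ≤ y := by
    intro x hx y hy h
    by_contra hlt
    push Not at hlt
    have h2 := (hφ y hy x hx hlt.le).1
    have h3 : 0 < l₁ * (x - y) := mul_pos h1 (by linarith)
    linarith
  have gap : ∀ a b, Gap (φ '' A) a b → ∃ u w, Gap A u w ∧ φ u = a ∧ φ w = b := by
    rintro a b ⟨⟨u, hu, rfl⟩, ⟨w, hw, rfl⟩, hab, hx⟩
    have huw : u < w := lt_of_le_of_ne (mono u hu w hw hab.le) (fun h => by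
      rw [h] at hab; exact lt_irrefl _ hab)
    refine ⟨u, w, ⟨hu, hw, huw, fun x hxA => ?_⟩, rfl, rfl⟩
    rcases hx _ ⟨x, hxA, rfl⟩ with h | h
    · exact Or.inl (mono x hxA u hu h)
    · exact Or.inr (mono w hw x hxA h)
  constructor
  · intro a b a' b' g1 g2 h3
    obtain ⟨u, w, hG, rfl, rfl⟩ := gap _ _ g1
    obtain ⟨u', w', hG', rfl, rfl⟩ := gap _ _ g2
    have h4 := mono w hG.2.1 u' hG'.1 h3
    have h5 := t.mid _ _ _ _ hG hG' h4
    have h6 := (hφ w hG.2.1 u' hG'.1 h4).1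
    have h7 := (hφ u hG.1 w hG.2.1 hG.2.2.1.le).2
    have h8 := (hφ u' hG'.1 w' hG'.2.1 hG'.2.2.1.le).2
    rw [one_mul]
    rcases le_total (w - u) (w' - u') with h9 | h9
    · rw [min_eq_left h9] at h5
      have h10 : l₂ * (w - u) ≤ (c * l₁) * (w - u) :=
        mul_le_mul_of_nonneg_right h12 (by linarith [hG.2.2.1])
      have h11 : l₁ * (c * (w - u)) ≤ l₁ * (u' - w) := mul_le_mul_of_nonneg_left h5 h1.le
      have h12 : (c * l₁) * (w - u) = l₁ * (c * (w - u)) := by ring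
      exact (min_le_left _ _).trans (by linarith)
    · rw [min_eq_right h9] at h5
      have h10 : l₂ * (w' - u') ≤ (c * l₁) * (w' - u') :=
        mul_le_mul_of_nonneg_right h12 (by linarith [hG'.2.2.1])
      have h11 : l₁ * (c * (w' - u')) ≤ l₁ * (u' - w) := mul_le_mul_of_nonneg_left h5 h1.le
      have h12 : (c * l₁) * (w' - u') = l₁ * (c * (w' - u')) := by ring
      exact (min_le_right _ _).trans (by linarith)
  · intro a b g1
    obtain ⟨u, w, hG, rfl, rfl⟩ := gap _ _ g1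
    obtain ⟨z, hz, hz1⟩ := t.right _ _ hG
    have h0 : 0 < c * (w - u) := mul_pos hc (by linarith [hG.2.2.1])
    refine ⟨φ z, ⟨z, hz, rfl⟩, ?_⟩
    have h6 := (hφ w hG.2.1 z hz (by linarith)).1
    have h7 := (hφ u hG.1 w hG.2.1 hG.2.2.1.le).2
    have h10 : l₂ * (w - u) ≤ (c * l₁) * (w - u) :=
      mul_le_mul_of_nonneg_right h12 (by linarith [hG.2.2.1])
    have h11 : l₁ * (c * (w - u)) ≤ l₁ * (z - w) := mul_le_mul_of_nonneg_left hz1 h1.le
    have h12 : (c * l₁) * (w - u) = l₁ * (c * (w - u)) := by ring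
    linarith
  · intro a b g1
    obtain ⟨u, w, hG, rfl, rfl⟩ := gap _ _ g1
    obtain ⟨z, hz, hz1⟩ := t.left _ _ hG
    have h0 : 0 < c * (w - u) := mul_pos hc (by linarith [hG.2.2.1])
    refine ⟨φ z, ⟨z, hz, rfl⟩, ?_⟩
    have h6 := (hφ z hz u hG.1 (by linarith)).1
    have h7 := (hφ u hG.1 w hG.2.1 hG.2.2.1.le).2
    have h10 : l₂ * (w - u) ≤ (c * l₁) * (w - u) :=
      mul_le_mul_of_nonneg_right h12 (by linarith [hG.2.2.1])
    have h11 : l₁ * (c * (w - u)) ≤ l₁ * (u - z) := mul_le_mul_of_nonneg_left hz1 h1.le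
    have h12 : (c * l₁) * (w - u) = l₁ * (c * (w - u)) := by ring
    linarith

/-- The longest gap in a piece at the right end. -/
lemma exists_max_gap {K : Set ℝ} (hK : IsCompact K) {a M : ℝ} (ha : a ∈ K) (hMK : M ∈ K)
    (hM : ∀ x ∈ K, x ≤ M) (haM : a < M) (htd : ∀ x y : ℝ, x < y → ∃ z, x < z ∧ z < y ∧ z ∉ K) :
    ∃ u₀ p, Gap K u₀ p ∧ a ≤ u₀ ∧ ∀ u w, Gap K u w → a ≤ u → w - u ≤ p - u₀ := by
  obtain ⟨y, hy1, hy2, hy3⟩ := htd a M haM
  obtain ⟨u, w, hG, g1, g2, g3, g4⟩ := exists_gap hK.isClosed ha hMK hy3 hy1.le hy2.le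
  obtain ⟨l, hl⟩ : ∃ l, l = w - u := ⟨_, rfl⟩
  have hl0 : 0 < l := by rw [hl]; linarith
  have hT : IsCompact {q : ℝ × ℝ | q.1 ∈ K ∧ q.2 ∈ K ∧ a ≤ q.1 ∧ l ≤ q.2 - q.1 ∧
      ∀ x ∈ K, x ≤ q.1 ∨ q.2 ≤ x} := by
    have hc : IsClosed {q : ℝ × ℝ | q.1 ∈ K ∧ q.2 ∈ K ∧ a ≤ q.1 ∧ l ≤ q.2 - q.1 ∧
        ∀ x ∈ K, x ≤ q.1 ∨ q.2 ≤ x} := by
      have e : {q : ℝ × ℝ | q.1 ∈ K ∧ q.2 ∈ K ∧ a ≤ q.1 ∧ l ≤ q.2 - q.1 ∧
          ∀ x ∈ K, x ≤ q.1 ∨ q.2 ≤ x} = {q | q.1 ∈ K} ∩ ({q | q.2 ∈ K} ∩ ({q | a ≤ q.1} ∩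
          ({q | l ≤ q.2 - q.1} ∩ (⋂ x ∈ K, ({q | x ≤ q.1} ∪ {q | q.2 ≤ x}))))) := by
        ext q; simp
      rw [e]
      refine (hK.isClosed.preimage continuous_fst).inter
        ((hK.isClosed.preimage continuous_snd).inter
        ((isClosed_le continuous_const continuous_fst).inter
        ((isClosed_le continuous_const (continuous_snd.sub continuous_fst)).inter ?_)))
      exact isClosed_biInter fun x _ =>
        (isClosed_le continuous_const continuous_fst).union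
          (isClosed_le continuous_snd continuous_const)
    refine IsCompact.of_isClosed_subset (hK.prod hK) hc ?_
    rintro q ⟨h1, h2, -⟩
    exact ⟨h1, h2⟩
  obtain ⟨⟨u₀, p⟩, ⟨h1, h2, h3, h4, h5⟩, hmax⟩ := hT.exists_isMaxOn
    ⟨(u, w), hG.1, hG.2.1, g1, hl.le, hG.2.2.2⟩ (f := fun q : ℝ × ℝ => q.2 - q.1) (by fun_prop)
  rw [isMaxOn_iff] at hmax
  simp only at h1 h2 h3 h4 h5
  refine ⟨u₀, p, ⟨h1, h2, by linarith, h5⟩, h3, fun x y hxy hax => ?_⟩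
  rcases lt_or_ge (y - x) l with h6 | h6
  · linarith
  · exact hmax (x, y) ⟨hxy.1, hxy.2.1, hax, h6, hxy.2.2.2⟩

/-- `f` has slopes near `m` on a right neighbourhood of `0`. -/
def Slope (f : ℝ → ℝ) (m : ℝ) : Prop :=
  ∀ ε : ℝ, 0 < ε → ∃ η : ℝ, 0 < η ∧ ∀ s t, 0 ≤ s → s ≤ t → t ≤ η →
    (m - ε) * (t - s) ≤ f t - f s ∧ f t - f s ≤ (m + ε) * (t - s)

/-- The pattern for slopes at most `1`. -/
theorem core {K : Set ℝ} (hK : IsCompact K) (hne : K.Nonempty) {c : ℝ} (hc : 1 < c) (t : Th c K)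
    (hperf : ∀ x ∈ K, ∀ η : ℝ, 0 < η → ∃ y ∈ K, y ≠ x ∧ |y - x| < η)
    (htd : ∀ x y : ℝ, x < y → ∃ z, x < z ∧ z < y ∧ z ∉ K) {f : ℝ → ℝ} {m : ℝ} (hm0 : 0 < m)
    (hm1 : m ≤ 1) (hf0 : f 0 = 0) (hf : Slope f m) (η₀ : ℝ) (hη₀ : 0 < η₀) :
    ∃ u ∈ K, ∃ x ∈ K, u < x ∧ x - u < η₀ ∧ x + f (x - u) ∈ K := by
  obtain ⟨M, hMK, hM⟩ := hK.exists_isGreatest hne
  have hM' : ∀ x ∈ K, x ≤ M := fun x hx => hM hx
  obtain ⟨ε, hε0, hε1, hε2⟩ : ∃ ε : ℝ, 0 < ε ∧ ε * (1 + c) ≤ c - 1 ∧ ε ≤ m / 2 := by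
    refine ⟨min ((c - 1) / (1 + c)) (m / 2), lt_min (div_pos (by linarith) (by linarith))
      (by linarith), ?_, min_le_right _ _⟩
    have h1 : min ((c - 1) / (1 + c)) (m / 2) ≤ (c - 1) / (1 + c) := min_le_left _ _
    have h2 : (c - 1) / (1 + c) * (1 + c) = c - 1 := div_mul_cancel₀ _ (by linarith)
    calc _ ≤ (c - 1) / (1 + c) * (1 + c) := mul_le_mul_of_nonneg_right h1 (by linarith)
      _ = c - 1 := h2
  have hεc : ε ≤ c - 1 := by nlinarith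
  obtain ⟨η, hη0, hη⟩ := hf ε hε0
  obtain ⟨a, haK, haM, haη⟩ := hperf M hMK (min η η₀) (lt_min hη0 hη₀)
  have haM' : a < M := lt_of_le_of_ne (hM' a haK) haM
  rw [abs_sub_comm, abs_of_pos (by linarith), lt_min_iff] at haη
  obtain ⟨u₀, p, hG, hau, hmax⟩ := exists_max_gap hK haK hMK hM' haM' htd
  have hup := hG.2.2.1
  have hpM := hM' p hG.2.1
  have hu0 : M - u₀ < η := by linarith
  have hu1 : M - u₀ < η₀ := by linarith
  -- the piece
  have tA := t.piece (by linarith) hM' hG (fun u w h1 h2 => hmax u w h1 (by linarith))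
  have hAc : IsCompact (K ∩ Icc p M) := hK.inter_right isClosed_Icc
  obtain ⟨φ, hφ⟩ : ∃ φ : ℝ → ℝ, φ = fun x => x + f (x - u₀) := ⟨_, rfl⟩
  have hφ1 : ∀ x ∈ Icc p M, ∀ y ∈ Icc p M, x ≤ y →
      (1 + m - ε) * (y - x) ≤ φ y - φ x ∧ φ y - φ x ≤ (1 + m + ε) * (y - x) := by
    intro x hx y hy hxy
    have h := hη (x - u₀) (y - u₀) (by linarith [hx.1]) (by linarith) (by linarith [hy.2])
    have e : y - u₀ - (x - u₀) = y - x := by ring
    rw [e] at h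
    rw [hφ]
    constructor
    · simp only; linarith [h.1]
    · simp only; linarith [h.2]
  have tB : Th 1 (φ '' (K ∩ Icc p M)) := by
    refine tA.image (l₁ := 1 + m - ε) (l₂ := 1 + m + ε) (by linarith) (by linarith) ?_ ?_
    · nlinarith
    · intro x hx y hy hxy
      exact hφ1 x hx.2 y hy.2 hxy
  have hcont : ContinuousOn φ (Icc p M) := by
    have hL : LipschitzOnWith (Real.toNNReal (1 + m + ε)) φ (Icc p M) := by
      refine LipschitzOnWith.of_dist_le_mul fun x hx y hy => ?_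
      rw [Real.coe_toNNReal _ (by linarith), Real.dist_eq, Real.dist_eq]
      rcases le_total x y with h | h
      · have h1 := hφ1 x hx y hy h
        have h2 : 0 ≤ (1 + m - ε) * (y - x) := mul_nonneg (by linarith) (by linarith)
        rw [abs_sub_comm, abs_of_nonneg (by linarith), abs_sub_comm, abs_of_nonneg (by linarith)]
        exact h1.2
      · have h1 := hφ1 y hy x hx h
        have h2 : 0 ≤ (1 + m - ε) * (x - y) := mul_nonneg (by linarith) (by linarith)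
        rw [abs_of_nonneg (by linarith), abs_of_nonneg (by linarith)]
        exact h1.2
    exact hL.continuousOn
  have hBc : IsCompact (φ '' (K ∩ Icc p M)) :=
    hAc.image_of_continuousOn (hcont.mono inter_subset_right)
  -- the values at the ends
  have hp1 : p ≤ φ p ∧ φ p ≤ M := by
    have h := hη 0 (p - u₀) le_rfl (by linarith) (by linarith)
    rw [hf0, sub_zero, sub_zero] at h
    obtain ⟨z, hz, hz1⟩ := t.right _ _ hG
    have h1 : 0 ≤ (m - ε) * (p - u₀) := mul_nonneg (by linarith) (by linarith)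
    have h2 : (m + ε) * (p - u₀) ≤ c * (p - u₀) :=
      mul_le_mul_of_nonneg_right (by linarith) (by linarith)
    have h3 := hM' z hz
    rw [hφ]
    constructor
    · simp only; linarith [h.1]
    · simp only; linarith [h.2]
  have hM1 : M ≤ φ M := by
    have h := (hη 0 (M - u₀) le_rfl (by linarith) (by linarith)).1
    rw [hf0, sub_zero, sub_zero] at h
    have h1 : 0 ≤ (m - ε) * (M - u₀) := mul_nonneg (by linarith) (by linarith)
    rw [hφ]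
    simp only; linarith
  have hpA : p ∈ K ∩ Icc p M := ⟨hG.2.1, le_rfl, hpM⟩
  have hMA : M ∈ K ∩ Icc p M := ⟨hMK, hpM, le_rfl⟩
  obtain ⟨y, hyA, ⟨x, hxA, hxy⟩⟩ := gap_lemma hAc hBc (cA := c) (cB := 1) (by linarith)
    one_pos (by linarith) tA tB hpA hMA ⟨p, hpA, rfl⟩ ⟨M, hMA, rfl⟩ hp1.1 hp1.2 hM1
  refine ⟨u₀, hG.1, x, hxA.1, by linarith [hxA.2.1], by linarith [hxA.2.2], ?_⟩
  have e : x + f (x - u₀) = y := by rw [← hxy, hφ]
  rw [e]
  exact hyA.1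

end Pool.Agent.Q187.TP
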