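import Mathlib

/-!
# Gaps of closed sets, thickness as a separation property, and the gap lemma
-/

set_option autoImplicit false

open Set

namespace Pool.Agent.Q187.TP

/-- `(u, w)` is a bounded gap of `K`. -/
def Gap (K : Set ℝ) (u w : ℝ) : Prop := u ∈ K ∧ w ∈ K ∧ u < w ∧ ∀ x ∈ K, x ≤ u ∨ w ≤ x

/-- Two gaps are separated by `c` times the length of the shorter one, and every gap is separated
from the ends of the set by `c` times its length. -/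
structure Th (c : ℝ) (A : Set ℝ) : Prop where
  mid : ∀ u w u' w', Gap A u w → Gap A u' w' → w ≤ u' → c * min (w - u) (w' - u') ≤ u' - w
  right : ∀ u w, Gap A u w → ∃ z ∈ A, c * (w - u) ≤ z - w
  left : ∀ u w, Gap A u w → ∃ z ∈ A, c * (w - u) ≤ u - z

/-- The gap around a point of the complement. -/
lemma exists_gap {A : Set ℝ} (hA : IsClosed A) {a b y : ℝ} (ha : a ∈ A) (hb : b ∈ A)
    (hy : y ∉ A) (h1 : a ≤ y) (h2 : y ≤ b) :
    ∃ u w, Gap A u w ∧ a ≤ u ∧ u < y ∧ y < w ∧ w ≤ b := by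
  have n1 : (A ∩ Iic y).Nonempty := ⟨a, ha, h1⟩
  have n2 : (A ∩ Ici y).Nonempty := ⟨b, hb, h2⟩
  have b1 : BddAbove (A ∩ Iic y) := ⟨y, fun x hx => hx.2⟩
  have b2 : BddBelow (A ∩ Ici y) := ⟨y, fun x hx => hx.2⟩
  have m1 := (hA.inter isClosed_Iic).csSup_mem n1 b1
  have m2 := (hA.inter isClosed_Ici).csInf_mem n2 b2
  have e1 : sSup (A ∩ Iic y) < y :=
    lt_of_le_of_ne m1.2 (fun h => hy (h ▸ m1.1))
  have e2 : y < sInf (A ∩ Ici y) :=
    lt_of_le_of_ne m2.2 (fun h => hy (h ▸ m2.1))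
  refine ⟨_, _, ⟨m1.1, m2.1, e1.trans e2, fun x hx => ?_⟩, le_csSup b1 ⟨ha, h1⟩, e1, e2,
    csInf_le b2 ⟨hb, h2⟩⟩
  rcases le_total x y with h | h
  · exact Or.inl (le_csSup b1 ⟨hx, h⟩)
  · exact Or.inr (csInf_le b2 ⟨hx, h⟩)

/-- The decisive step: a linked pair of gaps is not minimal. -/
lemma step {A B : Set ℝ} (hA : IsClosed A) (hB : IsClosed B) (hAB : ∀ x ∈ A, x ∉ B)
    {cA cB : ℝ} (h1 : 0 < cA) (h2 : 0 < cB) (hc : 1 ≤ cA * cB) (tA : Th cA A) (tB : Th cB B)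
    {u₁ u₂ v₁ v₂ : ℝ} (hU : Gap A u₁ u₂) (hV : Gap B v₁ v₂)
    (a1 : u₁ < v₁) (a2 : v₁ < u₂) (a3 : u₂ < v₂)
    (mU : ∀ x y, Gap A x y → v₁ < x → x < v₂ → v₂ < y → u₂ - u₁ ≤ y - x)
    (mV : ∀ x y, Gap B x y → x < u₁ → u₁ < y → y < u₂ → v₂ - v₁ ≤ y - x) : False := by
  have hUl := hU.2.2.1
  have hVl := hV.2.2.1
  have claim1 : cA * (u₂ - u₁) < v₂ - v₁ := by
    obtain ⟨z, hz, hz1⟩ := tA.right _ _ hU
    rcases lt_or_ge z v₂ with hzv | hzv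
    · linarith
    · have hv2 : v₂ ∉ A := fun h => hAB _ h hV.2.1
      obtain ⟨x, y, hG, g1, g2, g3, g4⟩ := exists_gap hA hU.2.1 hz hv2 a3.le hzv
      have hm := mU x y hG (by linarith) g2 g3
      have ht := tA.mid _ _ _ _ hU hG g1
      rw [min_eq_left hm] at ht
      linarith
  have claim2 : cB * (v₂ - v₁) < u₂ - u₁ := by
    obtain ⟨z, hz, hz1⟩ := tB.left _ _ hV
    rcases lt_or_ge u₁ z with hzv | hzv
    · linarith
    · have hu1 : u₁ ∉ B := fun h => hAB _ hU.1 h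
      obtain ⟨x, y, hG, g1, g2, g3, g4⟩ := exists_gap hB hz hV.1 hu1 hzv a1.le
      have hm := mV x y hG g2 g3 (by linarith)
      have ht := tB.mid _ _ _ _ hG hV g4
      rw [min_eq_right hm] at ht
      linarith
  have h3 : cB * (cA * (u₂ - u₁)) < cB * (v₂ - v₁) := mul_lt_mul_of_pos_left claim1 h2
  have h4 : 1 * (u₂ - u₁) ≤ (cA * cB) * (u₂ - u₁) :=
    mul_le_mul_of_nonneg_right hc (by linarith)
  have h5 : (cA * cB) * (u₂ - u₁) = cB * (cA * (u₂ - u₁)) := by ring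
  linarith

/-- The pairs of gaps which are linked with distances at least `d`. -/
def Linked (A B : Set ℝ) (d : ℝ) : Set (ℝ × ℝ × ℝ × ℝ) :=
  {q | q.1 ∈ A ∧ q.2.1 ∈ A ∧ q.2.2.1 ∈ B ∧ q.2.2.2 ∈ B ∧
    (∀ x ∈ A, x ≤ q.1 ∨ q.2.1 ≤ x) ∧ (∀ x ∈ B, x ≤ q.2.2.1 ∨ q.2.2.2 ≤ x) ∧
    ((q.1 + d ≤ q.2.2.1 ∧ q.2.2.1 + d ≤ q.2.1 ∧ q.2.1 + d ≤ q.2.2.2) ∨
      (q.2.2.1 + d ≤ q.1 ∧ q.1 + d ≤ q.2.2.2 ∧ q.2.2.2 + d ≤ q.2.1))}

lemma linked_compact {A B : Set ℝ} (hA : IsCompact A) (hB : IsCompact B) (d : ℝ) :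
    IsCompact (Linked A B d) := by
  have hc : IsClosed (Linked A B d) := by
    have e : Linked A B d = {q | q.1 ∈ A} ∩ ({q | q.2.1 ∈ A} ∩ ({q | q.2.2.1 ∈ B} ∩
        ({q | q.2.2.2 ∈ B} ∩ ((⋂ x ∈ A, ({q | x ≤ q.1} ∪ {q | q.2.1 ≤ x})) ∩
        ((⋂ x ∈ B, ({q | x ≤ q.2.2.1} ∪ {q | q.2.2.2 ≤ x})) ∩
        (({q | q.1 + d ≤ q.2.2.1} ∩ ({q | q.2.2.1 + d ≤ q.2.1} ∩ {q | q.2.1 + d ≤ q.2.2.2})) ∪
        ({q | q.2.2.1 + d ≤ q.1} ∩ ({q | q.1 + d ≤ q.2.2.2} ∩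
          {q | q.2.2.2 + d ≤ q.2.1})))))))) := by
      ext q
      simp [Linked]
    rw [e]
    have c1 : Continuous fun q : ℝ × ℝ × ℝ × ℝ => q.1 := by fun_prop
    have c2 : Continuous fun q : ℝ × ℝ × ℝ × ℝ => q.2.1 := by fun_prop
    have c3 : Continuous fun q : ℝ × ℝ × ℝ × ℝ => q.2.2.1 := by fun_prop
    have c4 : Continuous fun q : ℝ × ℝ × ℝ × ℝ => q.2.2.2 := by fun_prop
    refine (hA.isClosed.preimage c1).inter ((hA.isClosed.preimage c2).inter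
      ((hB.isClosed.preimage c3).inter ((hB.isClosed.preimage c4).inter
      (IsClosed.inter ?_ (IsClosed.inter ?_ (IsClosed.union ?_ ?_))))))
    · exact isClosed_biInter fun x _ =>
        (isClosed_le continuous_const c1).union (isClosed_le c2 continuous_const)
    · exact isClosed_biInter fun x _ =>
        (isClosed_le continuous_const c3).union (isClosed_le c4 continuous_const)
    · exact (isClosed_le (c1.add continuous_const) c3).inter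
        ((isClosed_le (c3.add continuous_const) c2).inter
          (isClosed_le (c2.add continuous_const) c4))
    · exact (isClosed_le (c3.add continuous_const) c1).inter
        ((isClosed_le (c1.add continuous_const) c4).inter
          (isClosed_le (c4.add continuous_const) c2))
  refine IsCompact.of_isClosed_subset (hA.prod (hA.prod (hB.prod hB))) hc ?_
  rintro q ⟨h1, h2, h3, h4, -⟩
  exact ⟨h1, h2, h3, h4⟩

/-- The gap lemma for two compact sets whose hulls are linked. -/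
theorem gap_lemma {A B : Set ℝ} (hA : IsCompact A) (hB : IsCompact B) {cA cB : ℝ}
    (h1 : 0 < cA) (h2 : 0 < cB) (hc : 1 ≤ cA * cB) (tA : Th cA A) (tB : Th cB B)
    {p q p' q' : ℝ} (hp : p ∈ A) (hq : q ∈ A) (hp' : p' ∈ B) (hq' : q' ∈ B)
    (a1 : p ≤ p') (a2 : p' ≤ q) (a3 : q ≤ q') : ∃ x ∈ A, x ∈ B := by
  by_contra hne
  push Not at hne
  have hAB : ∀ x ∈ A, x ∉ B := hne
  have hBA : ∀ x ∈ B, x ∉ A := fun x hx h => hne x h hx
  -- the first linked pair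
  obtain ⟨u₁, u₂, hU, g1, g2, g3, g4⟩ := exists_gap hA.isClosed hp hq (hBA _ hp') a1 a2
  obtain ⟨v₁, v₂, hV, k1, k2, k3, k4⟩ := exists_gap hB.isClosed hp' hq' (hAB _ hU.2.1) g3.le
    (g4.trans a3)
  -- the distance
  have hdis : Disjoint A B := Set.disjoint_left.mpr hAB
  obtain ⟨d', hd', hd1⟩ := Metric.exists_pos_forall_lt_edist hA hB.isClosed hdis
  obtain ⟨d, hdd⟩ : ∃ d : ℝ, d = (d' : ℝ) := ⟨_, rfl⟩
  have hd : 0 < d := by rw [hdd]; exact_mod_cast hd'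
  have hdist : ∀ x ∈ A, ∀ y ∈ B, d < |x - y| := by
    intro x hx y hy
    have h := hd1 x hx y hy
    rw [edist_dist, ENNReal.lt_ofReal_iff_toReal_lt (by simp)] at h
    rw [hdd, ← Real.dist_eq]
    simpa using h
  have sep1 : ∀ x ∈ A, ∀ y ∈ B, x < y → x + d ≤ y := by
    intro x hx y hy hxy
    have := hdist x hx y hy
    rw [abs_sub_comm, abs_of_pos (by linarith)] at this
    linarith
  have sep2 : ∀ x ∈ A, ∀ y ∈ B, y < x → y + d ≤ x := by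
    intro x hx y hy hxy
    have := hdist x hx y hy
    rw [abs_of_pos (by linarith)] at this
    linarith
  have hne' : (Linked A B d).Nonempty := by
    refine ⟨(u₁, u₂, v₁, v₂), hU.1, hU.2.1, hV.1, hV.2.1, hU.2.2.2, hV.2.2.2, Or.inl ⟨?_, ?_, ?_⟩⟩
    · exact sep1 _ hU.1 _ hV.1 (by linarith)
    · exact sep2 _ hU.2.1 _ hV.1 k2
    · exact sep1 _ hU.2.1 _ hV.2.1 k3
  obtain ⟨⟨x₁, x₂, y₁, y₂⟩, ⟨hx1, hx2, hy1, hy2, hx3, hy3, hor⟩, hmin⟩ :=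
    (linked_compact hA hB d).exists_isMinOn hne'
      (f := fun q : ℝ × ℝ × ℝ × ℝ => (q.2.1 - q.1) + (q.2.2.2 - q.2.2.1))
      (by fun_prop)
  simp only at hx1 hx2 hy1 hy2 hx3 hy3 hor
  rw [isMinOn_iff] at hmin
  rcases hor with ⟨o1, o2, o3⟩ | ⟨o1, o2, o3⟩
  · refine step hA.isClosed hB.isClosed hAB h1 h2 hc tA tB ⟨hx1, hx2, by linarith, hx3⟩
      ⟨hy1, hy2, by linarith, hy3⟩ (by linarith) (by linarith) (by linarith) ?_ ?_
    · intro x y hG e1 e2 e3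
      have := hmin (x, y, y₁, y₂) ⟨hG.1, hG.2.1, hy1, hy2, hG.2.2.2, hy3,
        Or.inr ⟨sep2 _ hG.1 _ hy1 e1, sep1 _ hG.1 _ hy2 e2, sep2 _ hG.2.1 _ hy2 e3⟩⟩
      simp only at this
      linarith
    · intro x y hG e1 e2 e3
      have := hmin (x₁, x₂, x, y) ⟨hx1, hx2, hG.1, hG.2.1, hx3, hG.2.2.2,
        Or.inr ⟨sep2 _ hx1 _ hG.1 e1, sep1 _ hx1 _ hG.2.1 e2, sep2 _ hx2 _ hG.2.1 e3⟩⟩
      simp only at this
      linarith
  · refine step hB.isClosed hA.isClosed hBA h2 h1 (by rw [mul_comm]; exact hc) tB tA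
      ⟨hy1, hy2, by linarith, hy3⟩ ⟨hx1, hx2, by linarith, hx3⟩ (by linarith) (by linarith)
      (by linarith) ?_ ?_
    · intro x y hG e1 e2 e3
      have := hmin (x₁, x₂, x, y) ⟨hx1, hx2, hG.1, hG.2.1, hx3, hG.2.2.2,
        Or.inl ⟨sep1 _ hx1 _ hG.1 e1, sep2 _ hx2 _ hG.1 e2, sep1 _ hx2 _ hG.2.1 e3⟩⟩
      simp only at this
      linarith
    · intro x y hG e1 e2 e3
      have := hmin (x, y, y₁, y₂) ⟨hG.1, hG.2.1, hy1, hy2, hG.2.2.2, hy3,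
        Or.inl ⟨sep1 _ hG.1 _ hy1 e1, sep2 _ hG.2.1 _ hy1 e2, sep1 _ hG.2.1 _ hy2 e3⟩⟩
      simp only at this
      linarith

end Pool.Agent.Q187.TP
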