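import Pool.Agent.Q187.TP.Core

/-!
# The three-point pattern for all slopes
-/

set_option autoImplicit false

open Set Filter Topology

namespace Pool.Agent.Q187.TP

lemma gap_neg {K : Set ℝ} {u w : ℝ} (h : Gap {x | -x ∈ K} u w) : Gap K (-w) (-u) := by
  obtain ⟨h1, h2, h3, h4⟩ := h
  refine ⟨h2, h1, by linarith, fun x hx => ?_⟩
  rcases h4 (-x) (by simpa using hx) with h | h
  · exact Or.inr (by linarith)
  · exact Or.inl (by linarith)

lemma Th.neg {K : Set ℝ} {c : ℝ} (t : Th c K) : Th c {x | -x ∈ K} := by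
  constructor
  · intro u w u' w' h1 h2 h3
    have h := t.mid _ _ _ _ (gap_neg h2) (gap_neg h1) (by linarith)
    have e1 : -u' - -w' = w' - u' := by ring
    have e2 : -u - -w = w - u := by ring
    rw [e1, e2, min_comm] at h
    linarith
  · intro u w h1
    obtain ⟨z, hz, hz1⟩ := t.left _ _ (gap_neg h1)
    refine ⟨-z, by simpa using hz, ?_⟩
    have e2 : -u - -w = w - u := by ring
    rw [e2] at hz1
    linarith
  · intro u w h1
    obtain ⟨z, hz, hz1⟩ := t.right _ _ (gap_neg h1)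
    refine ⟨-z, by simpa using hz, ?_⟩
    have e2 : -u - -w = w - u := by ring
    rw [e2] at hz1
    linarith

lemma slope_of_strict {f : ℝ → ℝ} {m : ℝ} (hf : HasStrictDerivAt f m 0) : Slope f m := by
  intro ε hε
  have h := hf.hasStrictFDerivAt.isLittleO.def hε
  obtain ⟨η₁, h1, h3'⟩ := Metric.eventually_nhds_iff.mp h
  have h3 : ∀ s t : ℝ, |s| < η₁ → |t| < η₁ → |f s - f t - (s - t) * m| ≤ ε * |s - t| := by
    intro s t hs ht
    have := @h3' (s, t) (by
      rw [Prod.dist_eq]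
      simpa [Real.dist_eq] using ⟨hs, ht⟩)
    simpa [Real.norm_eq_abs] using this
  refine ⟨η₁ / 2, by positivity, fun s t hs hst ht => ?_⟩
  have h6 := h3 t s (by rw [abs_of_nonneg (by linarith)]; linarith)
    (by rw [abs_of_nonneg hs]; linarith)
  rw [abs_of_nonneg (by linarith : (0 : ℝ) ≤ t - s), abs_le] at h6
  constructor
  · nlinarith [h6.1]
  · nlinarith [h6.2]

/-- The pattern. -/
theorem pattern {K : Set ℝ} (hK : IsCompact K) (hne : K.Nonempty) {c : ℝ} (hc : 1 < c)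
    (t : Th c K) (hperf : ∀ x ∈ K, ∀ η : ℝ, 0 < η → ∃ y ∈ K, y ≠ x ∧ |y - x| < η)
    (htd : ∀ x y : ℝ, x < y → ∃ z, x < z ∧ z < y ∧ z ∉ K) {f : ℝ → ℝ} {m : ℝ} (hm0 : 0 < m)
    (hf0 : f 0 = 0) (hf : HasStrictDerivAt f m 0) (δ : ℝ) (hδ : 0 < δ) :
    ∃ x t : ℝ, 0 < t ∧ t < δ ∧ x - t ∈ K ∧ x ∈ K ∧ x + f t ∈ K := by
  rcases le_or_gt m 1 with hm1 | hm1
  · obtain ⟨u, hu, x, hx, h1, h2, h3⟩ :=
      core hK hne hc t hperf htd hm0 hm1 hf0 (slope_of_strict hf) δ hδ
    exact ⟨x, x - u, by linarith, h2, by simpa using hu, hx, h3⟩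
  · obtain ⟨g, hg⟩ : ∃ g, g = hf.localInverse f m 0 hm0.ne' := ⟨_, rfl⟩
    have hg1 : HasStrictDerivAt g m⁻¹ 0 := by
      have := hf.to_localInverse hm0.ne'
      rw [hf0] at this
      rw [hg]; exact this
    have hg0 : g 0 = 0 := by
      have := (hf.hasStrictFDerivAt_equiv hm0.ne').localInverse_apply_image
      rw [hf0] at this
      rw [hg]; exact this
    have hg2 : ∀ᶠ y in 𝓝 (0 : ℝ), f (g y) = y := by
      have := (hf.hasStrictFDerivAt_equiv hm0.ne').eventually_right_inverse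
      rw [hf0] at this
      rw [hg]; exact this
    have hmi : 0 < m⁻¹ := inv_pos.mpr hm0
    have hmi1 : m⁻¹ ≤ 1 := inv_le_one_of_one_le₀ hm1.le
    have hs := slope_of_strict hg1
    obtain ⟨η₁, h1, h2⟩ := Metric.eventually_nhds_iff.mp hg2
    obtain ⟨η₂, h3, h4⟩ := hs (m⁻¹ / 2) (by linarith)
    have hneg : ∀ x : ℝ, x ∈ {x | -x ∈ K} ↔ -x ∈ K := fun x => Iff.rfl
    have hKc : IsCompact {x : ℝ | -x ∈ K} := by
      have := hK.image (continuous_neg (G := ℝ))
      convert this using 1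
      ext x
      constructor
      · intro h; exact ⟨-x, h, by simp⟩
      · rintro ⟨y, hy, rfl⟩; simpa using hy
    obtain ⟨z, hz⟩ := hne
    obtain ⟨u, hu, x, hx, k1, k2, k3⟩ := core hKc ⟨-z, by simpa using hz⟩ hc t.neg
      (by
        intro x hx η hη
        obtain ⟨y, hy, e1, e2⟩ := hperf (-x) hx η hη
        refine ⟨-y, by simpa using hy, fun h => e1 (by linarith), ?_⟩
        have e : -y - x = -(y - -x) := by ring
        rw [e, abs_neg]; exact e2)
      (by
        intro x y hxy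
        obtain ⟨z, e1, e2, e3⟩ := htd (-y) (-x) (by linarith)
        exact ⟨-z, by linarith, by linarith, by simpa using e3⟩)
      hmi hmi1 hg0 hs (min (min η₁ η₂) (δ / 2)) (by positivity)
    rw [lt_min_iff, lt_min_iff] at k2
    obtain ⟨⟨k4, k5⟩, k6⟩ := k2
    obtain ⟨s, hs'⟩ : ∃ s, s = x - u := ⟨_, rfl⟩
    have hs0 : 0 < s := by rw [hs']; linarith
    rw [← hs'] at k3 k4 k5 k6
    have h5 := h4 0 s le_rfl hs0.le k5.le
    rw [hg0, sub_zero, sub_zero] at h5
    have h6 : f (g s) = s := h2 (by rw [Real.dist_eq, sub_zero, abs_of_pos hs0]; exact k4)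
    have h7 : 0 < g s := by
      have : 0 < (m⁻¹ - m⁻¹ / 2) * s := mul_pos (by linarith) hs0
      linarith [h5.1]
    have h8 : g s < δ := by
      have h9 : (m⁻¹ + m⁻¹ / 2) * s ≤ 2 * s := mul_le_mul_of_nonneg_right (by linarith) hs0.le
      linarith [h5.2]
    refine ⟨-x, g s, h7, h8, ?_, hx, ?_⟩
    · have e : -x - g s = -(x + g s) := by ring
      rw [e]; exact k3
    · rw [h6, hs']
      have e : -x + (x - u) = -u := by ring
      rw [e]; exact hu

end Pool.Agent.Q187.TP
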